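import Mathlib
import Pool.Agent.NIPFields.NormForm
import Pool.Agent.NIPFields.FI.Galois
import Pool.Agent.NIPFields.KSW
import Pool.Agent.NIPFields.RB.AlgCl

set_option autoImplicit false

/-!
# Surjectivity of norms: reduction to Kummer extensions of prime degree
-/

namespace Pool.Agent.NIPFields.NA

open FirstOrder FirstOrder.Language FirstOrder.Ring Set
open Module Polynomial

universe u

/-- Every non-zero element is a norm from every Kummer extension of prime degree `ℓ ≠ p`. -/
def KN (p : ℕ) (K : Type u) [Field K] : Prop :=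
  ∀ (L : Type u) [Field L] [Algebra K L] [FiniteDimensional K L] [Algebra.IsSeparable K L]
    (ℓ : ℕ), ℓ.Prime → ℓ ≠ p → ∀ α : L, (∀ c : L, c ^ ℓ ≠ α) → ∀ x : L, x ≠ 0 → x ∈ NS ℓ α

/-- Roots of unity and roots of `-1` in a field with an algebraically closed subfield. -/
theorem exists_roots {K : Type u} [Field K] (k : Subfield K) [IsAlgClosed k] {ℓ : ℕ}
    (hℓ : (ℓ : K) ≠ 0) : (∃ ζ : K, IsPrimitiveRoot ζ ℓ) ∧ ∃ i : K, i ^ ℓ = -1 := by
  have hℓ0 : ℓ ≠ 0 := by
    rintro rfl
    simp at hℓ
  have hℓk : NeZero (ℓ : k) := by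
    refine ⟨fun h => hℓ ?_⟩
    have := congrArg (algebraMap k K) h
    rwa [map_natCast, map_zero] at this
  constructor
  · obtain ⟨ζ, hζ⟩ := IsAlgClosed.exists_root (cyclotomic ℓ k)
      (degree_cyclotomic_pos ℓ k (Nat.pos_of_ne_zero hℓ0)).ne'
    exact ⟨_, ((isRoot_cyclotomic_iff (n := ℓ)).1 hζ).map_of_injective (algebraMap k K).injective⟩
  · obtain ⟨i, hi⟩ := IsAlgClosed.exists_pow_nat_eq (-1 : k) (Nat.pos_of_ne_zero hℓ0)
    refine ⟨algebraMap k K i, ?_⟩
    rw [← map_pow, hi, map_neg, map_one]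

section

variable {p : ℕ} [hp : Fact p.Prime] {K : Type u} [Field K] [CompatibleRing K] [CharP K p]
  [Infinite K]

/-- Prime degree. -/
theorem norm_surj_prime (hK : NIP K) (hKN : KN p K) {L N : Type u} [Field L] [Field N]
    [Algebra K L] [Algebra L N] [FiniteDimensional K L] [Algebra.IsSeparable K L]
    [FiniteDimensional L N] [IsGalois L N] {ℓ : ℕ} (hℓ : ℓ.Prime) (hd : finrank L N = ℓ)
    (x : L) : ∃ y : N, Algebra.norm L y = x := by
  have hFact : Fact ℓ.Prime := ⟨hℓ⟩
  rcases eq_or_ne x 0 with rfl | hx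
  · exact ⟨0, Algebra.norm_zero⟩
  have hchL : CharP L p := charP_of_injective_algebraMap (algebraMap K L).injective p
  have hinf : Infinite L := Infinite.of_injective _ (algebraMap K L).injective
  rcases eq_or_ne ℓ p with rfl | hℓp
  · exact (FI.no_AS (F := L) (N := N) (fun w => hK.artinSchreier (finBasis K L) w) hd).elim
  have hℓK : (ℓ : K) ≠ 0 := by
    intro h0
    rw [CharP.cast_eq_zero_iff K p] at h0
    exact hℓp ((Nat.prime_dvd_prime_iff_eq hp.out hℓ).1 h0).symm
  obtain ⟨k, hk⟩ := RB.exists_algClosed p hK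
  obtain ⟨⟨ζ, hζ⟩, -⟩ := exists_roots k hℓK
  have hζL : IsPrimitiveRoot (algebraMap K L ζ) ℓ :=
    hζ.map_of_injective (algebraMap K L).injective
  have hcard : Nat.card (Gal(N/L)) = ℓ := by
    rw [IsGalois.card_aut_eq_finrank, hd]
  have hcyc : IsCyclic (Gal(N/L)) := isCyclic_of_prime_card hcard
  obtain ⟨γ, ⟨a, ha⟩, hγ⟩ := exists_root_adjoin_eq_top_of_isCyclic L N
    ⟨algebraMap K L ζ, by rw [hd, mem_primitiveRoots hℓ.pos]; exact hζL⟩
  rw [hd] at ha
  have haP : ∀ c : L, c ^ ℓ ≠ a := by
    intro b hb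
    have hmem : γ ∈ Set.range (algebraMap L N) := by
      by_cases hb0 : b = 0
      · have : γ = 0 := by
          have h1 : γ ^ ℓ = 0 := by
            rw [← ha, ← hb, hb0, zero_pow hℓ.ne_zero, map_zero]
          exact pow_eq_zero_iff hℓ.ne_zero |>.1 h1
        exact ⟨0, by rw [this, map_zero]⟩
      · have hb0' : algebraMap L N b ≠ 0 := (_root_.map_ne_zero _).2 hb0
        have hζN : IsPrimitiveRoot (algebraMap L N (algebraMap K L ζ)) ℓ :=
          hζL.map_of_injective (algebraMap L N).injective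
        obtain ⟨i, _, hi⟩ := hζN.eq_pow_of_pow_eq_one (ξ := γ / algebraMap L N b) (by
          rw [div_pow, ← ha, ← hb, map_pow]
          exact div_self (pow_ne_zero _ hb0'))
        refine ⟨(algebraMap K L ζ) ^ i * b, ?_⟩
        rw [map_mul, map_pow, hi, div_mul_cancel₀ _ hb0']
    have h1 : IntermediateField.adjoin L {γ} = ⊥ := by
      rw [IntermediateField.adjoin_simple_eq_bot_iff]
      obtain ⟨x, hx⟩ := hmem
      exact IntermediateField.mem_bot.2 ⟨x, hx⟩
    rw [h1] at hγ
    have h2 : finrank L N = 1 := by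
      rw [← IntermediateField.finrank_top', ← hγ, IntermediateField.finrank_bot]
    rw [hd] at h2
    exact hℓ.one_lt.ne' h2
  obtain ⟨y, hy⟩ := (NS_eq_range γ a ha.symm haP x).1 (hKN L ℓ hℓ hℓp a haP x hx)
  let e : IntermediateField.adjoin L {γ} ≃ₐ[L] N :=
    (IntermediateField.equivOfEq hγ).trans IntermediateField.topEquiv
  refine ⟨e y, ?_⟩
  rw [← hy]
  exact Algebra.norm_eq_of_algEquiv e y

/-- Galois extensions of prime power degree. -/
theorem norm_surj_pow (hK : NIP K) (hKN : KN p K) {ℓ : ℕ} (hℓ : ℓ.Prime) (n : ℕ) :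
    ∀ (L N : Type u) [Field L] [Field N]
    [Algebra K L] [Algebra L N] [FiniteDimensional K L] [Algebra.IsSeparable K L]
    [FiniteDimensional L N] [IsGalois L N], finrank L N = ℓ ^ n →
      ∀ x : L, ∃ y : N, Algebra.norm L y = x := by
  have hFact : Fact ℓ.Prime := ⟨hℓ⟩
  induction n with
  | zero =>
    intro L N _ _ _ _ _ _ _ _ hd x
    rw [pow_zero] at hd
    refine ⟨algebraMap L N x, ?_⟩
    rw [Algebra.norm_algebraMap, hd, pow_one]
  | succ n ih =>
    intro L N _ _ _ _ _ _ _ _ hd x
    have hc : Nat.card (Gal(N/L)) = ℓ ^ (n + 1) := by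
      rw [IsGalois.card_aut_eq_finrank, hd]
    obtain ⟨H, hH⟩ := Sylow.exists_subgroup_card_pow_prime (G := Gal(N/L)) ℓ (n := n)
      (by rw [hc]; exact pow_dvd_pow ℓ (Nat.le_succ n))
    have hidx : H.index = ℓ := by
      have h1 := H.card_mul_index
      rw [hH, hc, pow_succ] at h1
      exact Nat.eq_of_mul_eq_mul_left (pow_pos hℓ.pos n) h1
    have hN : H.Normal := by
      refine Subgroup.normal_of_index_eq_minFac_card ?_
      rw [hidx, hc, hℓ.pow_minFac (Nat.succ_ne_zero n)]
    let M := IntermediateField.fixedField H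
    have hdM : finrank M N = ℓ ^ n := by
      rw [IntermediateField.finrank_fixedField_eq_card, hH]
    have hdL : finrank L M = ℓ := by
      have h1 := finrank_mul_finrank L M N
      rw [hdM, hd, pow_succ, mul_comm] at h1
      exact Nat.eq_of_mul_eq_mul_left (pow_pos hℓ.pos n) h1
    let _ : Algebra K M := ((algebraMap L M).comp (algebraMap K L)).toAlgebra
    have : IsScalarTower K L M := IsScalarTower.of_algebraMap_eq fun _ => rfl
    have : FiniteDimensional K M := FiniteDimensional.trans K L M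
    have : Algebra.IsSeparable K M := Algebra.IsSeparable.trans K L M
    obtain ⟨y, hy⟩ := norm_surj_prime hK hKN (L := L) (N := M) hℓ hdL x
    obtain ⟨z, hz⟩ := ih M N hdM y
    refine ⟨z, ?_⟩
    rw [← Algebra.norm_norm (S := M), hz, hy]

/-- Galois extensions. -/
theorem norm_surj_gal (hK : NIP K) (hKN : KN p K) {L N : Type u} [Field L] [Field N]
    [Algebra K L] [Algebra L N] [FiniteDimensional K L] [Algebra.IsSeparable K L]
    [FiniteDimensional L N] [IsGalois L N] (x : L) : ∃ y : N, Algebra.norm L y = x := by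
  rcases eq_or_ne x 0 with rfl | hx
  · exact ⟨0, Algebra.norm_zero⟩
  let Γ : Subgroup Lˣ := (Units.map (Algebra.norm L : N →* L)).range
  let u : Lˣ := Units.mk0 x hx
  have key : ∀ m : ℕ, m ≠ 0 → (∃ y : N, Algebra.norm L y = x ^ m) → u ^ m ∈ Γ := by
    rintro m hm ⟨y, hy⟩
    have hy0 : y ≠ 0 := by
      rintro rfl
      rw [Algebra.norm_zero] at hy
      exact pow_ne_zero m hx hy.symm
    refine ⟨Units.mk0 y hy0, ?_⟩
    apply Units.ext
    exact hy
  have h1 : u ∈ Γ := by
    have h2 : orderOf (u : Lˣ ⧸ Γ) ∣ finrank L N := by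
      rw [orderOf_dvd_iff_pow_eq_one, ← QuotientGroup.mk_pow, QuotientGroup.eq_one_iff]
      exact key _ finrank_pos.ne' ⟨algebraMap L N x, Algebra.norm_algebraMap x⟩
    have h3 : orderOf (u : Lˣ ⧸ Γ) = 1 := by
      by_contra hne
      obtain ⟨ℓ, hℓ, hℓd⟩ := Nat.exists_prime_and_dvd hne
      have hFact : Fact ℓ.Prime := ⟨hℓ⟩
      have S : Sylow ℓ (Gal(N/L)) := default
      let M := IntermediateField.fixedField (S : Subgroup (Gal(N/L)))
      have hdM : finrank M N = ℓ ^ (Nat.card (Gal(N/L))).factorization ℓ := by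
        rw [IntermediateField.finrank_fixedField_eq_card, S.card_eq_multiplicity]
      let _ : Algebra K M := ((algebraMap L M).comp (algebraMap K L)).toAlgebra
      have : IsScalarTower K L M := IsScalarTower.of_algebraMap_eq fun _ => rfl
      have : FiniteDimensional K M := FiniteDimensional.trans K L M
      have : Algebra.IsSeparable K M := Algebra.IsSeparable.trans K L M
      obtain ⟨y, hy⟩ := norm_surj_pow hK hKN hℓ _ M N hdM (algebraMap L M x)
      have h4 : Algebra.norm L y = x ^ finrank L M := by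
        rw [← Algebra.norm_norm (S := M), hy, Algebra.norm_algebraMap]
      have h5 : orderOf (u : Lˣ ⧸ Γ) ∣ finrank L M := by
        rw [orderOf_dvd_iff_pow_eq_one, ← QuotientGroup.mk_pow, QuotientGroup.eq_one_iff]
        exact key _ finrank_pos.ne' ⟨y, h4⟩
      have h6 : ¬ ℓ ∣ finrank L M := by
        have h7 : finrank L M = (S : Subgroup (Gal(N/L))).index := by
          have h8 := finrank_mul_finrank L M N
          have h9 := (S : Subgroup (Gal(N/L))).card_mul_index
          rw [IntermediateField.finrank_fixedField_eq_card, ← IsGalois.card_aut_eq_finrank L N,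
            ← h9, mul_comm] at h8
          exact Nat.eq_of_mul_eq_mul_left Nat.card_pos h8
        rw [h7]
        exact S.not_dvd_index
      exact h6 (hℓd.trans h5)
    rwa [orderOf_eq_one_iff, QuotientGroup.eq_one_iff] at h3
  obtain ⟨y, hy⟩ := h1
  exact ⟨y, congrArg Units.val hy⟩

/-- Separable extensions. -/
theorem norm_surj (hK : NIP K) (hKN : KN p K) {L M : Type u} [Field L] [Field M]
    [Algebra K L] [Algebra L M] [FiniteDimensional K L] [Algebra.IsSeparable K L]
    [FiniteDimensional L M] [Algebra.IsSeparable L M] (x : L) :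
    ∃ y : M, Algebra.norm L y = x := by
  let N := IntermediateField.normalClosure L M (SeparableClosure M)
  have h1 : Algebra.IsSeparable L (SeparableClosure M) := Algebra.IsSeparable.trans L M _
  have h2 : IsSepClosure L (SeparableClosure M) := ⟨inferInstance, h1⟩
  have h3 : IsGalois L (SeparableClosure M) := inferInstance
  have : IsGalois L N := IsGalois.normalClosure L M (SeparableClosure M)
  obtain ⟨y, hy⟩ := norm_surj_gal hK hKN (N := N) x
  refine ⟨Algebra.norm M y, ?_⟩
  rw [Algebra.norm_norm, hy]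

end

end Pool.Agent.NIPFields.NA
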