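import Mathlib
import Pool.Agent.NIPFields.Pattern

set_option autoImplicit false

/-!
# The norm relation of Kummer extensions is symmetric

`NS ℓ a` is the set of the norms from `K[X]/(X ^ ℓ - a)`. If `K` contains a primitive `ℓ`-th root
of unity `ζ` then `w ∈ NS ℓ a` implies `a ∈ NS ℓ w` for `a, w` which are not `ℓ`-th powers: on
`F = K(θ)`, `θ ^ ℓ = a`, `w = N(β)`, the operator `Q f = β * σ f` satisfies `Q ^ ℓ = w` and
`P Q = ζ Q P` for the multiplication `P` by `θ`; `F` is a one-dimensional vector space over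
`K[Q]`, so `θ = q(Q) 1`, and `a = P ^ ℓ 1` is the product of the conjugates of `q`.
-/

namespace Pool.Agent.NIPFields.NA

open Polynomial

universe u

/-- The norm of a cyclic extension. -/
theorem norm_eq_prod_pow {K F : Type*} [Field K] [Field F] [Algebra K F] [FiniteDimensional K F]
    [IsGalois K F] {n : ℕ} (hn : Module.finrank K F = n) (σ : F ≃ₐ[K] F)
    (hσ : ∀ τ : F ≃ₐ[K] F, τ ∈ Subgroup.zpowers σ) (x : F) :
    algebraMap K F (Algebra.norm K x) = ∏ i ∈ Finset.range n, (σ ^ i) x := by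
  classical
  have hc : Nat.card (F ≃ₐ[K] F) = n := by rw [IsGalois.card_aut_eq_finrank, hn]
  rw [Algebra.norm_eq_prod_automorphisms]
  have h1 := IsCyclic.image_range_card hσ
  rw [hc] at h1
  rw [← h1, Finset.prod_image]
  intro i hi j hj hij
  have ho : orderOf σ = n := by
    rw [← hc]
    exact orderOf_eq_card_of_forall_mem_zpowers hσ
  rw [← ho] at hi hj
  exact pow_injOn_Iio_orderOf (by simpa using hi) (by simpa using hj) hij

section step

variable {K F : Type*} [Field K] [Field F] [Algebra K F]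

/-- The operator `f ↦ β * σ f`. -/
noncomputable def opQ (β : F) (σ : F ≃ₐ[K] F) : Module.End K F :=
  (LinearMap.mulLeft K β) ∘ₗ σ.toLinearMap

theorem opQ_apply (β : F) (σ : F ≃ₐ[K] F) (f : F) : opQ β σ f = β * σ f := rfl

theorem opQ_pow (β : F) (σ : F ≃ₐ[K] F) (n : ℕ) (f : F) :
    (opQ β σ ^ n) f = (∏ i ∈ Finset.range n, (σ ^ i) β) * (σ ^ n) f := by
  induction n with
  | zero => simp
  | succ n ih =>
    rw [pow_succ', Module.End.mul_apply, ih, opQ_apply, map_mul, map_prod,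
      Finset.prod_range_succ']
    have h1 : ∀ (i : ℕ) (x : F), σ ((σ ^ i) x) = (σ ^ (i + 1)) x := by
      intro i x
      rw [pow_succ']
      rfl
    simp only [h1, pow_zero, AlgEquiv.one_apply]
    ring

theorem mulLeft_comm_pow {β θ : F} {σ : F ≃ₐ[K] F} {ζ : K} (hζ : ζ ≠ 0)
    (hσ : σ θ = ζ⁻¹ • θ) (n : ℕ) (f : F) :
    θ * (opQ β σ ^ n) f = ζ ^ n • (opQ β σ ^ n) (θ * f) := by
  induction n generalizing f with
  | zero => simp
  | succ n ih =>
    rw [pow_succ, Module.End.mul_apply, Module.End.mul_apply, ih, opQ_apply, opQ_apply,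
      map_mul σ, hσ]
    have h1 : β * (ζ⁻¹ • θ * σ f) = ζ⁻¹ • (θ * (β * σ f)) := by
      rw [smul_mul_assoc, mul_smul_comm]
      congr 1
      ring
    rw [h1, map_smul, smul_smul, pow_succ, mul_assoc, mul_inv_cancel₀ hζ, mul_one]

/-- Transport of a polynomial in `Q` through the multiplication by `θ`. -/
theorem mulLeft_aeval {β θ : F} {σ : F ≃ₐ[K] F} {ζ : K} (hζ : ζ ≠ 0)
    (hσ : σ θ = ζ⁻¹ • θ) (r : K[X]) (f : F) :
    θ * (aeval (opQ β σ) r) f = (aeval (opQ β σ) (r.comp (C ζ * X))) (θ * f) := by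
  induction r using Polynomial.induction_on' with
  | add p q hp hq =>
    rw [add_comp, map_add, map_add, LinearMap.add_apply, LinearMap.add_apply, mul_add, hp, hq]
  | monomial n c =>
    have e1 : aeval (opQ β σ) ((monomial n c).comp (C ζ * X)) =
        c • ζ ^ n • (opQ β σ) ^ n := by
      rw [monomial_comp, map_mul (aeval (opQ β σ)), aeval_C, map_pow (aeval (opQ β σ)),
        map_mul (aeval (opQ β σ)), aeval_C, aeval_X, ← Algebra.smul_def, ← Algebra.smul_def,
        _root_.smul_pow]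
    have e2 : aeval (opQ β σ) (monomial n c) = c • (opQ β σ) ^ n := by
      rw [aeval_monomial, ← Algebra.smul_def]
    rw [e1, e2, LinearMap.smul_apply, LinearMap.smul_apply, LinearMap.smul_apply,
      mul_smul_comm, mulLeft_comm_pow hζ hσ]

/-- The polynomial `q` with `∏ q(ζ ^ i X) = a` modulo `X ^ ℓ - w`. -/
theorem exists_poly {ℓ : ℕ} [FiniteDimensional K F]
    (hfr : Module.finrank K F = ℓ) {β θ : F} {σ : F ≃ₐ[K] F} {ζ a w : K} (hζ : ζ ≠ 0)
    (hσ : σ θ = ζ⁻¹ • θ) (hσℓ : σ ^ ℓ = 1) (hθ : θ ^ ℓ = algebraMap K F a)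
    (hw : ∏ i ∈ Finset.range ℓ, (σ ^ i) β = algebraMap K F w)
    (hirr : Irreducible (X ^ ℓ - C w : K[X])) :
    ∃ q : K[X], (X ^ ℓ - C w) ∣
      (∏ i ∈ Finset.range ℓ, q.comp (C (ζ ^ i) * X)) - C a := by
  classical
  have hℓ0 : 0 < ℓ := by rw [← hfr]; exact Module.finrank_pos
  set Q := opQ β σ with hQ
  have hQℓ : aeval Q (X ^ ℓ - C w) = 0 := by
    rw [map_sub, map_pow, aeval_X, aeval_C]
    ext f
    rw [LinearMap.sub_apply, hQ, opQ_pow, hσℓ, hw, Module.algebraMap_end_apply,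
      AlgEquiv.one_apply, Algebra.smul_def, sub_self, LinearMap.zero_apply]
  have hker : ∀ r : K[X], (aeval Q r) (1 : F) = 0 → (X ^ ℓ - C w) ∣ r := by
    intro r hr
    by_contra hnd
    obtain ⟨u, v, huv⟩ := (hirr.coprime_iff_not_dvd.2 hnd).symm
    have h1 := congrArg (fun s => (aeval Q s) (1 : F)) huv
    simp only [map_add, map_mul, hQℓ, mul_zero, add_zero, map_one, Module.End.mul_apply, hr,
      map_zero, Module.End.one_apply] at h1
    exact zero_ne_one h1
  -- surjectivity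
  let ψ : K[X] →ₗ[K] F := (LinearMap.applyₗ (1 : F)).comp (aeval Q).toLinearMap
  have hψ : ∀ r, ψ r = (aeval Q r) (1 : F) := fun _ => rfl
  let ψ' : (Fin ℓ → K) →ₗ[K] F := ψ.comp ((degreeLT K ℓ).subtype.comp
    (degreeLTEquiv K ℓ).symm.toLinearMap)
  have hinj : Function.Injective ψ' := by
    rw [← LinearMap.ker_eq_bot, LinearMap.ker_eq_bot']
    intro z hz
    have h1 : (X ^ ℓ - C w) ∣ (((degreeLTEquiv K ℓ).symm z : degreeLT K ℓ) : K[X]) := hker _ hz
    have h2 : (((degreeLTEquiv K ℓ).symm z : degreeLT K ℓ) : K[X]) = 0 := by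
      refine eq_zero_of_dvd_of_degree_lt h1 ?_
      rw [degree_X_pow_sub_C hℓ0]
      exact mem_degreeLT.1 ((degreeLTEquiv K ℓ).symm z).2
    have h3 : (degreeLTEquiv K ℓ).symm z = 0 := Subtype.ext h2
    exact (LinearEquiv.map_eq_zero_iff _).1 h3
  have hsurj : Function.Surjective ψ' := by
    rw [← LinearMap.injective_iff_surjective_of_finrank_eq_finrank]
    · exact hinj
    · rw [hfr, Module.finrank_fin_fun]
  obtain ⟨z, hz⟩ := hsurj θ
  set q : K[X] := (((degreeLTEquiv K ℓ).symm z : degreeLT K ℓ) : K[X]) with hq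
  have hqθ : (aeval Q q) (1 : F) = θ := hz
  refine ⟨q, hker _ ?_⟩
  have key : ∀ n : ℕ, (aeval Q (∏ i ∈ Finset.range n, q.comp (C (ζ ^ i) * X))) (1 : F) =
      θ ^ n := by
    intro n
    induction n with
    | zero => simp
    | succ n ih =>
      have e1 : (∏ i ∈ Finset.range (n + 1), q.comp (C (ζ ^ i) * X)) =
          (∏ i ∈ Finset.range n, q.comp (C (ζ ^ i) * X)).comp (C ζ * X) * q := by
        rw [prod_comp, Finset.prod_range_succ']
        congr 1
        · refine Finset.prod_congr rfl fun i _ => ?_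
          rw [comp_assoc]
          congr 1
          simp only [mul_comp, C_comp, X_comp, ← mul_assoc, ← C_mul, pow_succ]
        · simp
      rw [pow_succ', ← ih, mulLeft_aeval hζ hσ, mul_one, e1, map_mul, Module.End.mul_apply,
        hqθ]
  rw [map_sub, LinearMap.sub_apply, key, hθ, aeval_C, Module.algebraMap_end_apply,
    Algebra.smul_def, mul_one, sub_self]

end step

section main

variable {K : Type u} [Field K] {ℓ : ℕ} [hℓ : Fact ℓ.Prime]

omit hℓ in
theorem aut_pow_root {b : K} (η : rootsOfUnity ℓ K) (i : ℕ) :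
    ((autAdjoinRootXPowSubC ℓ b η) ^ i) (AdjoinRoot.root (X ^ ℓ - C b)) =
      (((η : Kˣ) : K) ^ i) • AdjoinRoot.root (X ^ ℓ - C b) := by
  induction i with
  | zero => simp
  | succ i ih =>
    rw [pow_succ', AlgEquiv.mul_apply, ih, map_smul, autAdjoinRootXPowSubC_root, smul_smul,
      pow_succ]

/-- The norm of a Kummer extension. -/
theorem norm_adj_eq_prod {b ζ : K} (hζ : IsPrimitiveRoot ζ ℓ) (hb : ∀ c : K, c ^ ℓ ≠ b)
    (η : rootsOfUnity ℓ K) (hη : ((η : Kˣ) : K) ≠ 1) (x : Adj ℓ b) :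
    algebraMap K (Adj ℓ b) (Algebra.norm K x) =
      ∏ i ∈ Finset.range ℓ, ((autAdjoinRootXPowSubC ℓ b η) ^ i) x := by
  have H : Irreducible (X ^ ℓ - C b) := X_pow_sub_C_irreducible_of_prime hℓ.out hb
  have hFact := Fact.mk H
  have hprim : (primitiveRoots ℓ K).Nonempty := ⟨ζ, (mem_primitiveRoots hℓ.out.pos).2 hζ⟩
  have hNZ : NeZero ℓ := ⟨hℓ.out.ne_zero⟩
  have hsf := isSplittingField_AdjoinRoot_X_pow_sub_C hprim H
  have hG : IsGalois K (Adj ℓ b) := isGalois_of_isSplittingField_X_pow_sub_C hprim H _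
  have hfd : FiniteDimensional K (Adj ℓ b) := adj_finite b
  have hfr : Module.finrank K (Adj ℓ b) = ℓ := by
    rw [Module.finrank_eq_card_basis (adjBasis ℓ b), Fintype.card_fin]
  refine norm_eq_prod_pow hfr _ ?_ x
  intro τ
  refine mem_zpowers_of_prime_card (p := ℓ) ?_ ?_
  · rw [IsGalois.card_aut_eq_finrank, hfr]
  · intro h
    have h1 := autAdjoinRootXPowSubC_root b η
    rw [h, AlgEquiv.one_apply] at h1
    have h2 : AdjoinRoot.root (X ^ ℓ - C b) ≠ 0 := by
      intro h0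
      have h3 := root_X_pow_sub_C_pow ℓ b
      rw [h0, zero_pow hNZ.out] at h3
      have h4 : b = 0 := by
        have h5 : algebraMap K (AdjoinRoot (X ^ ℓ - C b)) b = 0 := h3.symm
        exact (map_eq_zero_iff _ (algebraMap K (AdjoinRoot (X ^ ℓ - C b))).injective).1 h5
      exact hb 0 (by rw [zero_pow hNZ.out, h4])
    apply hη
    have h6 : (((η : Kˣ) : K) - 1) • AdjoinRoot.root (X ^ ℓ - C b) = 0 := by
      rw [sub_smul, one_smul, ← h1, sub_self]
    rcases smul_eq_zero.1 h6 with h7 | h7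
    · exact sub_eq_zero.1 h7
    · exact absurd h7 h2

/-- **The norm relation is symmetric.** -/
theorem NS_symm {a w ζ : K} (hζ : IsPrimitiveRoot ζ ℓ) (ha : ∀ c : K, c ^ ℓ ≠ a)
    (hw : ∀ c : K, c ^ ℓ ≠ w) (h : w ∈ NS ℓ a) : a ∈ NS ℓ w := by
  have hNZ : NeZero ℓ := ⟨hℓ.out.ne_zero⟩
  rw [← NSR_eq_NS, mem_NSR_iff_adj] at h ⊢
  obtain ⟨β, hβ⟩ := h
  have Ha : Irreducible (X ^ ℓ - C a) := X_pow_sub_C_irreducible_of_prime hℓ.out ha
  have Hw : Irreducible (X ^ ℓ - C w) := X_pow_sub_C_irreducible_of_prime hℓ.out hw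
  have hFa := Fact.mk Ha
  have hFw := Fact.mk Hw
  have hfd : FiniteDimensional K (Adj ℓ a) := adj_finite a
  have hfr : Module.finrank K (Adj ℓ a) = ℓ := by
    rw [Module.finrank_eq_card_basis (adjBasis ℓ a), Fintype.card_fin]
  have hζ0 : ζ ≠ 0 := hζ.ne_zero hℓ.out.ne_zero
  have hζ1 : ζ ≠ 1 := hζ.ne_one hℓ.out.one_lt
  let η : rootsOfUnity ℓ K := hζ.toRootsOfUnity
  have hη : ((η : Kˣ) : K) = ζ := rfl
  have hη' : (((η⁻¹ : rootsOfUnity ℓ K) : Kˣ) : K) = ζ⁻¹ := by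
    rw [InvMemClass.coe_inv, Units.val_inv_eq_inv_val, hη]
  obtain ⟨q, hq⟩ := exists_poly (F := Adj ℓ a) (β := β) (θ := AdjoinRoot.root (X ^ ℓ - C a))
    (σ := autAdjoinRootXPowSubC ℓ a η⁻¹) (a := a) (w := w) hfr hζ0
    (by rw [autAdjoinRootXPowSubC_root, hη'])
    (by
      rw [← map_pow]
      have h1 : (η⁻¹) ^ ℓ = 1 := by
        rw [inv_pow, inv_eq_one]
        apply Subtype.ext
        apply Units.ext
        exact hζ.pow_eq_one
      rw [h1, map_one])
    (adj_root_pow a)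
    (by
      rw [← norm_adj_eq_prod hζ ha η⁻¹ (by rw [hη']; exact fun h => hζ1 (inv_eq_one.1 h)), hβ])
    Hw
  refine ⟨AdjoinRoot.mk _ q, ?_⟩
  apply (algebraMap K (Adj ℓ w)).injective
  rw [norm_adj_eq_prod hζ hw η (by rw [hη]; exact hζ1)]
  have h1 : ∀ i : ℕ, ((autAdjoinRootXPowSubC ℓ w η) ^ i) (AdjoinRoot.mk (X ^ ℓ - C w) q) =
      AdjoinRoot.mk (X ^ ℓ - C w) (q.comp (C (ζ ^ i) * X)) := by
    intro i
    have e := aut_pow_root (b := w) η i
    rw [hη] at e
    rw [← AdjoinRoot.aeval_eq, ← AdjoinRoot.aeval_eq, aeval_comp, map_mul, aeval_C, aeval_X,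
      ← Algebra.smul_def, ← e]
    exact (aeval_algHom_apply (((autAdjoinRootXPowSubC ℓ w η) ^ i : Adj ℓ w ≃ₐ[K] Adj ℓ w) :
      Adj ℓ w →ₐ[K] Adj ℓ w) (AdjoinRoot.root (X ^ ℓ - C w)) q).symm
  rw [Finset.prod_congr rfl fun i _ => h1 i, ← map_prod]
  have h2 := (AdjoinRoot.mk_eq_mk (f := X ^ ℓ - C w)).2 hq
  rw [h2]
  rfl

/-- The norm of `s - θ`. -/
theorem pow_sub_mem_NS (s b : K) : s ^ ℓ - b ∈ NS ℓ b := by
  have hNZ : NeZero ℓ := ⟨hℓ.out.ne_zero⟩
  rw [← NSR_eq_NS, mem_NSR_iff_adj]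
  have hmon : (X ^ ℓ - C b).Monic := monic_X_pow_sub_C b hNZ.out
  refine ⟨algebraMap K (Adj ℓ b) s - AdjoinRoot.root (X ^ ℓ - C b), ?_⟩
  let pb := AdjoinRoot.powerBasis hmon.ne_zero
  have h1 : minpoly K pb.gen = X ^ ℓ - C b := by
    have h2 := AdjoinRoot.minpoly_root hmon.ne_zero
    rw [hmon.leadingCoeff, inv_one, C_1, mul_one] at h2
    exact h2
  rw [Algebra.norm_eq_matrix_det pb.basis]
  have h3 : Algebra.leftMulMatrix pb.basis (algebraMap K (Adj ℓ b) s -
      AdjoinRoot.root (X ^ ℓ - C b)) = Matrix.scalar _ s -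
        Algebra.leftMulMatrix pb.basis pb.gen := by
    rw [map_sub, AlgHom.commutes]
    rfl
  rw [h3, ← Matrix.eval_charpoly, charpoly_leftMulMatrix, h1]
  simp

end main

end Pool.Agent.NIPFields.NA
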