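import Mathlib
import Pool.Agent.NIPFields.NA.Sym
import Pool.Agent.NIPFields.Config
import Pool.Agent.NIPFields.LS.Main

set_option autoImplicit false

/-!
# Configurations for the norm relation

`T` is the group of the non-zero `ℓ`-th powers of `L`. Let `α` be no `ℓ`-th power. We choose
`b i`, `c j` in `L` with `c j - b i ∈ T` for `i ≠ j` and `c j - b j ∈ α T`. If the ratios of
different elements of `u + {b i, c j}` are not norms from `L(α ^ (1/ℓ))`, then the norm relation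
shatters a set with `n` elements.
-/

namespace Pool.Agent.NIPFields.NA

open Pool.Agent.NIPFields.LG (Pw Pw_one Pw_ne Pw_mul Pw_inv)
open Pool.Agent.NIPFields.RB

universe u

/-- There are small `ℓ`-th powers. -/
def Sml (L : Type*) [Field L] (ℓ : ℕ) : Prop :=
  ∀ A : Finset L, ∃ t : L, t ≠ 0 ∧ ∀ a ∈ A, 1 + a * t ^ ℓ ∈ Pw L ℓ

section conf

variable {L : Type u} [Field L] {ℓ : ℕ}

theorem exists_b (hm : (-1 : L) ∈ Pw L ℓ) (hS : Sml L ℓ) (n : ℕ) :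
    ∃ b : Fin n → L, (∀ i, b i ∈ Pw L ℓ) ∧ ∀ i j, i ≠ j → b i - b j ∈ Pw L ℓ := by
  classical
  induction n with
  | zero => exact ⟨fun _ => 0, fun i => i.elim0, fun i => i.elim0⟩
  | succ n ih =>
    obtain ⟨b, h1, h2⟩ := ih
    obtain ⟨t, ht, h3⟩ := hS (Finset.univ.image fun i => -(b i)⁻¹)
    have h4 : ∀ i, t ^ ℓ - b i ∈ Pw L ℓ := by
      intro i
      have h5 := h3 _ (Finset.mem_image_of_mem _ (Finset.mem_univ i))
      have h6 : t ^ ℓ - b i = (-1) * b i * (1 + -(b i)⁻¹ * t ^ ℓ) := by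
        have := Pw_ne (h1 i)
        field_simp
        ring
      rw [h6]
      exact Pw_mul (Pw_mul hm (h1 i)) h5
    have h5 : ∀ i, b i - t ^ ℓ ∈ Pw L ℓ := by
      intro i
      have h6 : b i - t ^ ℓ = (-1) * (t ^ ℓ - b i) := by ring
      rw [h6]
      exact Pw_mul hm (h4 i)
    refine ⟨Fin.cons (t ^ ℓ) b, ?_, ?_⟩
    · intro i
      refine Fin.cases ?_ (fun i => ?_) i
      · exact ⟨t, ht, rfl⟩
      · rw [Fin.cons_succ]
        exact h1 i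
    · intro i j
      refine Fin.cases ?_ (fun i => ?_) i
      · refine Fin.cases ?_ (fun j => ?_) j
        · intro h
          exact absurd rfl h
        · intro _
          rw [Fin.cons_zero, Fin.cons_succ]
          exact h4 j
      · refine Fin.cases ?_ (fun j => ?_) j
        · intro _
          rw [Fin.cons_zero, Fin.cons_succ]
          exact h5 i
        · intro h
          rw [Fin.cons_succ, Fin.cons_succ]
          exact h2 i j fun e => h (by rw [e])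

theorem exists_c (hS : Sml L ℓ) {n : ℕ} {b : Fin n → L}
    (hb : ∀ i j, i ≠ j → b i - b j ∈ Pw L ℓ) (α : L) :
    ∃ (c : Fin n → L) (r : Fin n → L), (∀ j, r j ≠ 0 ∧ c j - b j = α * r j ^ ℓ) ∧
      ∀ i j, i ≠ j → c j - b i ∈ Pw L ℓ := by
  classical
  have h1 : ∀ j, ∃ t : L, t ≠ 0 ∧ ∀ i, i ≠ j → 1 + α * (b j - b i)⁻¹ * t ^ ℓ ∈ Pw L ℓ := by
    intro j
    obtain ⟨t, ht, h⟩ := hS (Finset.univ.image fun i => α * (b j - b i)⁻¹)
    exact ⟨t, ht, fun i _ => h _ (Finset.mem_image_of_mem _ (Finset.mem_univ i))⟩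
  choose r hr h2 using h1
  refine ⟨fun j => b j + α * r j ^ ℓ, r, fun j => ⟨hr j, by ring⟩, fun i j hij => ?_⟩
  have h3 := hb j i (Ne.symm hij)
  have h4 : b j + α * r j ^ ℓ - b i = (b j - b i) * (1 + α * (b j - b i)⁻¹ * r j ^ ℓ) := by
    have := Pw_ne h3
    field_simp
    ring
  rw [h4]
  exact Pw_mul h3 (h2 j i hij)

/-- The group of the norms from `L(α ^ (1/ℓ))`. -/
def NG (ℓ : ℕ) {L : Type*} [Field L] (α : L) : Set L := {x | x ≠ 0 ∧ x ∈ NS ℓ α}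

variable [hℓ : Fact ℓ.Prime]

instance isGrp_NG {α : L} : LS.IsGrp (NG ℓ α) where
  one := ⟨one_ne_zero, have : NeZero ℓ := ⟨hℓ.out.ne_zero⟩; one_mem_NS α⟩
  ne := fun _ hx => hx.1
  mul := fun _ hx _ hy => ⟨mul_ne_zero hx.1 hy.1,
    have : NeZero ℓ := ⟨hℓ.out.ne_zero⟩; NS_mul' hx.2 hy.2⟩
  inv := fun _ hx => ⟨inv_ne_zero hx.1, have : NeZero ℓ := ⟨hℓ.out.ne_zero⟩; NS_inv' hx.2⟩

theorem Pw_subset_NG (α : L) : Pw L ℓ ⊆ NG ℓ α := by
  have : NeZero ℓ := ⟨hℓ.out.ne_zero⟩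
  rintro _ ⟨b, hb, rfl⟩
  exact ⟨pow_ne_zero _ hb, pow_mem_NS α b⟩

theorem NS_symm' {a w ζ : L} (hζ : IsPrimitiveRoot ζ ℓ) (hw : ∀ c : L, c ^ ℓ ≠ w)
    (h : w ∈ NS ℓ a) : a ∈ NS ℓ w := by
  have : NeZero ℓ := ⟨hℓ.out.ne_zero⟩
  by_cases ha : ∀ c : L, c ^ ℓ ≠ a
  · exact NS_symm hζ ha hw h
  · push Not at ha
    obtain ⟨c, rfl⟩ := ha
    exact pow_mem_NS w c

/-- The diagonal. -/
theorem notMem_diag {ζ α x y r : L} (hζ : IsPrimitiveRoot ζ ℓ) (hm : (-1 : L) ∈ Pw L ℓ)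
    (hα : ∀ c : L, c ^ ℓ ≠ α) (hy : y ≠ 0) (hr : r ≠ 0) (hxy : y - x = α * r ^ ℓ)
    (hw : x / y ∉ NS ℓ α) : x ∉ NS ℓ y := by
  have : NeZero ℓ := ⟨hℓ.out.ne_zero⟩
  intro h
  have hm' : ∀ a : L, (-1 : L) ∈ NS ℓ a := fun a => (Pw_subset_NG a hm).2
  have hwp : ∀ c : L, c ^ ℓ ≠ x / y := by
    intro c hc
    apply hw
    rw [← hc]
    exact pow_mem_NS α c
  have hyy : y ∈ NS ℓ y := by
    have h1 := pow_sub_mem_NS (ℓ := ℓ) 0 y
    rw [zero_pow hℓ.out.ne_zero, zero_sub] at h1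
    have h2 := NS_mul' (hm' y) h1
    rwa [neg_mul_neg, one_mul] at h2
  have h1 : x / y ∈ NS ℓ y := by
    rw [div_eq_mul_inv]
    exact NS_mul' h (NS_inv' hyy)
  have h2 : x / y ∈ NS ℓ (α * r ^ ℓ / y) := by
    have h3 := pow_sub_mem_NS (ℓ := ℓ) 1 (α * r ^ ℓ / y)
    have h4 : (1 : L) ^ ℓ - α * r ^ ℓ / y = x / y := by
      rw [one_pow, ← hxy]
      field_simp
      ring
    rwa [h4] at h3
  have h3 := NS_symm' hζ hwp h1
  have h4 := NS_symm' hζ hwp h2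
  have h5 : α ∈ NS ℓ (x / y) := by
    have h6 := NS_mul' (NS_mul' h3 h4) (pow_mem_NS (ℓ := ℓ) (x / y) r⁻¹)
    have h7 : y * (α * r ^ ℓ / y) * r⁻¹ ^ ℓ = α := by
      rw [inv_pow]
      field_simp
    rwa [h7] at h6
  exact hw (NS_symm' hζ hα h5)

/-- The norm relation is shattered by a rainbow configuration. -/
theorem shatE_of_rainbow {ζ α u : L} (hζ : IsPrimitiveRoot ζ ℓ) (hm : (-1 : L) ∈ Pw L ℓ)
    (hα : ∀ c : L, c ^ ℓ ≠ α) {n : ℕ} {b c r : Fin n → L}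
    (h1 : ∀ j, r j ≠ 0 ∧ c j - b j = α * r j ^ ℓ) (h2 : ∀ i j, i ≠ j → c j - b i ∈ Pw L ℓ)
    (hb : ∀ i, u + b i ≠ 0) (hc : ∀ j, u + c j ≠ 0)
    (hw : ∀ j, (u + b j) / (u + c j) ∉ NS ℓ α) : ShatE ℓ L n := by
  classical
  have hNZ : NeZero ℓ := ⟨hℓ.out.ne_zero⟩
  have hm' : ∀ a : L, (-1 : L) ∈ NS ℓ a := fun a => (Pw_subset_NG a hm).2
  have hf1 : ∀ i j, i ≠ j → u + b i ∈ NS ℓ (u + c j) := by
    intro i j hij
    obtain ⟨s, -, hs⟩ := h2 i j hij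
    have h3 := NS_mul' (hm' _) (pow_sub_mem_NS (ℓ := ℓ) s (u + c j))
    have h4 : (-1 : L) * (s ^ ℓ - (u + c j)) = u + b i := by
      rw [← hs]
      ring
    rwa [h4] at h3
  have hf3 : ∀ j, u + b j ∉ NS ℓ (u + c j) := fun j =>
    notMem_diag hζ hm hα (hc j) (h1 j).1 (by rw [← (h1 j).2]; ring) (hw j)
  have hprod : ∀ (i : Fin n) (s : Finset (Fin n)), i ∉ s →
      (∏ k ∈ s, (u + b k)) ∈ NS ℓ (u + c i) := by
    intro i s hi
    refine NS_prod s _ _ (fun k hk => hf1 k i ?_)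
    rintro rfl
    exact hi hk
  refine ⟨fun i => u + c i, fun J => ∏ k ∈ Jᶜ, (u + b k), fun i J => ⟨fun h => ?_, fun h => ?_⟩⟩
  · by_contra hi
    have hi' : i ∈ Jᶜ := Finset.mem_compl.2 hi
    have h : (∏ k ∈ Jᶜ, (u + b k)) ∈ NS ℓ (u + c i) := h
    rw [← Finset.mul_prod_erase _ _ hi'] at h
    have hP := hprod i (Jᶜ.erase i) (Finset.notMem_erase i _)
    have hP0 : (∏ k ∈ Jᶜ.erase i, (u + b k)) ≠ 0 := Finset.prod_ne_zero_iff.2 (fun k _ => hb k)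
    apply hf3 i
    have := NS_mul' h (NS_inv' hP)
    rwa [mul_assoc, mul_inv_cancel₀ hP0, mul_one] at this
  · exact hprod i Jᶜ (by simpa using h)

/-- Some finite set has no rainbow translate. -/
theorem exists_noRainbow {ζ α : L} (hζ : IsPrimitiveRoot ζ ℓ) (hm : (-1 : L) ∈ Pw L ℓ)
    (hS : Sml L ℓ) (hα : ∀ c : L, c ^ ℓ ≠ α) {n : ℕ} (hn : ¬ ShatE ℓ L n) :
    ∃ B : Finset L, NoRainbow (NG ℓ α) B := by
  classical
  obtain ⟨b, -, h2⟩ := exists_b hm hS n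
  obtain ⟨c, r, h3, h4⟩ := exists_c hS h2 α
  refine ⟨Finset.univ.image b ∪ Finset.univ.image c, fun u hu => ?_⟩
  by_contra hcon
  push Not at hcon
  apply hn
  have hb : ∀ i, b i ∈ Finset.univ.image b ∪ Finset.univ.image c := fun i =>
    Finset.mem_union_left _ (Finset.mem_image_of_mem _ (Finset.mem_univ i))
  have hc : ∀ i, c i ∈ Finset.univ.image b ∪ Finset.univ.image c := fun i =>
    Finset.mem_union_right _ (Finset.mem_image_of_mem _ (Finset.mem_univ i))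
  have hα0 : α ≠ 0 := by
    rintro rfl
    exact hα 0 (zero_pow hℓ.out.ne_zero)
  refine shatE_of_rainbow hζ hm hα h3 h4 (fun i => hu _ (hb i)) (fun i => hu _ (hc i)) ?_
  intro j hj
  refine hcon _ (hb j) _ (hc j) ?_ ⟨div_ne_zero (hu _ (hb j)) (hu _ (hc j)), hj⟩
  intro h
  have h5 := (h3 j).2
  rw [h, sub_self] at h5
  exact mul_ne_zero hα0 (pow_ne_zero _ (h3 j).1) h5.symm

end conf

end Pool.Agent.NIPFields.NA
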