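import Mathlib
import Pool.Agent.NIPFields.NA.Conf
import Pool.Agent.NIPFields.LG.FTRel
import Pool.Agent.NIPFields.LG.FTA

set_option autoImplicit false

/-!
# Large NIP fields with a norm which is not surjective
-/

namespace Pool.Agent.NIPFields.NA

open FirstOrder FirstOrder.Language FirstOrder.Ring Set Filter
open Pool.Agent.NIPFields.FI Pool.Agent.NIPFields.RB
open Pool.Agent.NIPFields.LG (Pw Pw_one Pw_ne Pw_mul Pw_inv TL LD ld_germ mem_Pw_germ Large
  TLR_of_large)

universe u

attribute [local instance] germAlg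

/-- The small elements can be taken among the `ℓ`-th powers. -/
theorem sml_of_TL {L : Type u} [Field L] [CompatibleRing L] (hL : NIP L) {ℓ : ℕ} (hℓ : ℓ ≠ 0)
    (hTL : TL L ℓ) (hne : ∃ a : L, a ≠ 0 ∧ a ∉ Pw L ℓ) : Sml L ℓ := by
  classical
  have D := ld_germ hL hℓ hTL hne
  obtain ⟨ε, hε0, hε⟩ := D.small {1}
  have hε1 : ε ∈ Inf L (Pw (Germ (UF L : Filter (Finset L)) L) ℓ) := by
    have := hε 1 (Finset.mem_singleton_self _)
    rwa [one_mul] at this
  have hpow : ∀ n : ℕ, n ≠ 0 → ε ^ n ∈ Inf L (Pw (Germ (UF L : Filter (Finset L)) L) ℓ) := by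
    intro n hn
    induction n with
    | zero => exact absurd rfl hn
    | succ n ih =>
      rcases eq_or_ne n 0 with rfl | h0
      · rwa [zero_add, pow_one]
      · rw [pow_succ]
        exact D.mul_mem (ih h0) hε1
  have h1 := hpow ℓ hℓ
  induction ε using Germ.inductionOn with | _ f
  intro A
  have h2 : ∀ᶠ t in (UF L : Filter (Finset L)), f t ≠ 0 := by
    rw [Ultrafilter.eventually_not]
    intro h
    apply hε0
    rw [← Germ.coe_zero, Germ.coe_eq]
    exact h
  have h3 : ∀ᶠ t in (UF L : Filter (Finset L)), ∀ a ∈ A, 1 + a * f t ^ ℓ ∈ Pw L ℓ := by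
    rw [Filter.eventually_all_finset]
    intro a _
    exact (mem_Pw_germ (fun t => 1 + a * f t ^ ℓ)).1 (h1 a)
  obtain ⟨t, ht1, ht2⟩ := (h2.and h3).exists
  exact ⟨f t, ht1, ht2⟩

/-- The norm group is definable. -/
theorem definable_NG {L : Type u} [Field L] [CompatibleRing L] (ℓ : ℕ) (α : L) :
    (univ : Set L).Definable₁ Language.ring (NG ℓ α) := by
  let e : Module.Basis (Fin (Module.finrank L L)) L L := Module.finBasis L L
  obtain ⟨A, -, hdef⟩ := definable_NS e ℓ
  have hdef' := hdef.mono (subset_univ A)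
  have h1 : (univ : Set L).Definable Language.ring {v : Fin 1 → L | v 0 ∈ NS ℓ α} := by
    have h := Set.Definable.preimage_map
      (F := fun (v : Fin 1 → L) (k : Fin (Module.finrank L L) ⊕ Fin (Module.finrank L L)) =>
        Sum.elim (fun k => e.repr α k) (fun k => v 0 * e.repr 1 k) k) (fun k => by
          rcases k with k | k
          · exact dfun_const (mem_univ _)
          · exact dfun_mul (dfun_var 0) (dfun_const (mem_univ _))) hdef'
    convert h using 1
    ext v
    simp only [mem_ofPred_eq, mem_preimage]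
    have e1 : toL e ((fun k : Fin (Module.finrank L L) ⊕ Fin (Module.finrank L L) =>
        Sum.elim (fun k => e.repr α k) (fun k => v 0 * e.repr 1 k) k) ∘ Sum.inl) = α :=
      toL_repr e α
    have e2 : toL e ((fun k : Fin (Module.finrank L L) ⊕ Fin (Module.finrank L L) =>
        Sum.elim (fun k => e.repr α k) (fun k => v 0 * e.repr 1 k) k) ∘ Sum.inr) = v 0 := by
      have h2 := toL_repr e (v 0)
      have h3 : (fun k => e.repr (v 0) k) = fun k => v 0 * e.repr 1 k := by
        funext k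
        have h4 : v 0 = v 0 • (1 : L) := by rw [smul_eq_mul, mul_one]
        conv_lhs => rw [h4]
        rw [map_smul, Finsupp.smul_apply, smul_eq_mul]
      rw [h3] at h2
      exact h2
    rw [e1, e2]
  have h2 : (univ : Set L).Definable Language.ring {v : Fin 1 → L | v 0 = 0} :=
    Set.DefinableFun.ofPred_eq (dfun_var _) dfun_zero
  exact h2.compl.inter h1

/-- **Theorem A, Kummer form.** -/
theorem exists_definable_of_kummer {p : ℕ} [hp : Fact p.Prime] {K : Type u} [Field K]
    [CompatibleRing K] (hK : NIP K) [CharP K p] (hl : Large K) {L : Type u} [Field L]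
    [Algebra K L] [FiniteDimensional K L] [Algebra.IsSeparable K L] {ℓ : ℕ} (hℓ : ℓ.Prime)
    (hℓp : ℓ ≠ p) {ζ : L} (hζ : IsPrimitiveRoot ζ ℓ) (hm : (-1 : L) ∈ Pw L ℓ) {α x : L}
    (hα : ∀ c : L, c ^ ℓ ≠ α) (hx0 : x ≠ 0) (hx : x ∉ NS ℓ α) :
    ∃ O : ValuationSubring K, O ≠ ⊤ ∧ HenselianLocalRing O ∧
      (univ : Set K).Definable₁ Language.ring {x | x ∈ O} := by
  have : Fact ℓ.Prime := ⟨hℓ⟩
  have _ : Infinite K := hl.infinite
  let _ : CompatibleRing L := compatibleRingOfRing L
  have hL : NIP L := hK.finite (Module.finBasis K L)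
  have h : (ℓ : K) ≠ 0 := by
    intro h0
    rw [CharP.cast_eq_zero_iff K p] at h0
    exact hℓp ((Nat.prime_dvd_prime_iff_eq hp.out hℓ).1 h0).symm
  have hTL : TL L ℓ := (TLR_of_large hl h (L := L)).tl
  have hα0 : α ≠ 0 := by
    rintro rfl
    exact hα 0 (zero_pow hℓ.ne_zero)
  have hS : Sml L ℓ := sml_of_TL hL hℓ.ne_zero hTL ⟨α, hα0, by
    rintro ⟨b, -, hb⟩
    exact hα b hb.symm⟩
  obtain ⟨n, hn⟩ := hL.exists_not_shatE ℓ
  obtain ⟨B, hB⟩ := exists_noRainbow hζ hm hS hα hn
  exact LS.theoremRS_prime hK (T := NG ℓ α) (definable_NG ℓ α) ⟨x, hx0, fun h => hx h.2⟩ hℓ hℓp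
    (Pw_subset_NG α) hB

end Pool.Agent.NIPFields.NA
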