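import Mathlib
import Pool.Agent.NIPFields.NA.Main
import Pool.Agent.NIPFields.NA.Gal

set_option autoImplicit false

/-!
# Large NIP fields with a norm which is not surjective: final form
-/

namespace Pool.Agent.NIPFields.NA

open FirstOrder FirstOrder.Language FirstOrder.Ring Set
open Pool.Agent.NIPFields.LG (Pw Large)

universe u

/-- **Theorem A.** Let `K` be a large NIP field of characteristic `p > 0` which has no nontrivial
definable henselian valuation. Then all norm maps between finite separable extensions of `K` are
surjective. -/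
theorem exists_definable_of_norm {p : ℕ} [hp : Fact p.Prime] {K : Type u} [Field K]
    [CompatibleRing K] (hK : NIP K) [CharP K p] (hl : Large K) {L M : Type u} [Field L] [Field M]
    [Algebra K L] [Algebra L M] [FiniteDimensional K L] [Algebra.IsSeparable K L]
    [FiniteDimensional L M] [Algebra.IsSeparable L M] (x : L)
    (hx : ∀ y : M, Algebra.norm L y ≠ x) :
    ∃ O : ValuationSubring K, O ≠ ⊤ ∧ HenselianLocalRing O ∧
      (univ : Set K).Definable₁ Language.ring {x | x ∈ O} := by
  have _ : Infinite K := hl.infinite
  by_contra hcon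
  have hKN : KN p K := by
    intro E _ _ _ _ ℓ hℓ hℓp α hα z hz
    by_contra hz'
    apply hcon
    have h : (ℓ : K) ≠ 0 := by
      intro h0
      rw [CharP.cast_eq_zero_iff K p] at h0
      exact hℓp ((Nat.prime_dvd_prime_iff_eq hp.out hℓ).1 h0).symm
    obtain ⟨k, hk⟩ := RB.exists_algClosed p hK
    obtain ⟨⟨ζ, hζ⟩, i, hi⟩ := exists_roots k h
    refine exists_definable_of_kummer hK hl hℓ hℓp
      (hζ.map_of_injective (algebraMap K E).injective) ?_ hα hz hz'
    refine ⟨algebraMap K E i, ?_, ?_⟩
    · intro h0
      have h1 : i = 0 := (map_eq_zero_iff _ (algebraMap K E).injective).1 h0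
      rw [h1, zero_pow hℓ.ne_zero] at hi
      exact one_ne_zero (neg_eq_zero.1 hi.symm)
    · rw [← map_pow, hi, map_neg, map_one]
  obtain ⟨y, hy⟩ := norm_surj hK hKN (M := M) x
  exact hx y hy

end Pool.Agent.NIPFields.NA
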